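import Pool.Agent.E8helper48.PO.Low

/-!
# Paths of order six

If all pairs of vertices of a graph with `n ≥ 7` vertices are joined by paths of the orders `3` and
`n`, then they are joined by paths of order `6`.
-/

set_option autoImplicit false

namespace Pool.Agent.E8helper48.PO

open SimpleGraph

variable {V : Type*} {G : SimpleGraph V}

/-- no path of order six from `u` to `v` -/
def No6 (G : SimpleGraph V) (u v : V) : Prop :=
  ∀ a x y b : V, G.Adj u a → G.Adj a x → G.Adj x y → G.Adj y b → G.Adj b v → a ≠ y → a ≠ b → a ≠ v →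
    x ≠ u → x ≠ v → x ≠ b → y ≠ u → y ≠ v → b ≠ u → False

theorem no6_of {u v : V} (huv : u ≠ v) (h : ¬ ∃ p : G.Walk u v, p.IsPath ∧ p.length + 1 = 6) :
    No6 G u v := by
  intro a x y b h1 h2 h3 h4 h5 hay hab hav hxu hxv hxb hyu hyv hbu
  apply h
  refine ⟨Walk.cons h1 (Walk.cons h2 (Walk.cons h3 (Walk.cons h4 (Walk.cons h5 Walk.nil)))), ?_, rfl⟩
  rw [Walk.isPath_def]
  simp only [Walk.support_cons, Walk.support_nil, List.nodup_cons, List.mem_cons,
    List.not_mem_nil, or_false, not_or, List.nodup_nil, not_false_eq_true, and_true]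
  exact ⟨⟨h1.ne, hxu.symm, hyu.symm, hbu.symm, huv⟩, ⟨h2.ne, hay, hab, hav⟩, ⟨h3.ne, hxb, hxv⟩,
    ⟨h4.ne, hyv⟩, h5.ne⟩

/-- **Order six.** -/
theorem six [Fintype V] [DecidableEq V] {n : ℕ} (hc : Fintype.card V = n) (hn : 7 ≤ n)
    (h3 : HasP G 3) (hH : HasP G n) : HasP G 6 := by
  intro u v huv
  by_contra hno
  have key := no6_of huv hno
  obtain ⟨c, huc, hcv⟩ := p3 h3 huv
  obtain ⟨w, w0, w1, hadj, hinj, hsurj⟩ := ham hc hH huv
  set A : V → Prop := fun z => G.Adj u z ∧ z ≠ v with hA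
  set B : V → Prop := fun z => G.Adj z v ∧ z ≠ u with hB
  have hcA : A c := ⟨huc, hcv.ne⟩
  have hcB : B c := ⟨hcv, huc.ne'⟩
  set D : V → Prop := fun d => d ≠ u ∧ d ≠ v ∧ ¬ G.Adj u d ∧ ¬ G.Adj v d with hD
  have four : ∀ a x y b, A a → B b → G.Adj a x → G.Adj x y → G.Adj y b → a ≠ y → a ≠ b → x ≠ b →
      x ≠ u → x ≠ v → y ≠ u → y ≠ v → False := fun a x y b ha hb h1 h2 h3 h4 h5 h6 h7 h8 h9 h10 =>
    key a x y b ha.1 h1 h2 h3 hb.1 h4 h5 ha.2 h7 h8 h6 h9 h10 hb.2
  -- no path with four vertices from `c` to a neighbour of `u` or `v`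
  have cc : ∀ x y z, G.Adj c x → G.Adj x y → G.Adj y z → c ≠ y → c ≠ z → x ≠ z →
      x ≠ u → x ≠ v → y ≠ u → y ≠ v → (A z ∨ B z) → False := by
    intro x y z e1 e2 e3 f1 f2 f3 f4 f5 f6 f7 hz
    rcases hz with hz | hz
    · exact four z y x c hz hcB e3.symm e2.symm e1.symm f3.symm f2.symm f1.symm f6 f7 f4 f5
    · exact four c x y z hcA hz e1 e2 e3 f1 f2 f3 f4 f5 f6 f7
  have trich : ∀ z, z ≠ u → z ≠ v → (A z ∨ B z) ∨ D z := by
    intro z hzu hzv
    by_cases h : G.Adj u z
    · exact Or.inl (Or.inl ⟨h, hzv⟩)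
    · by_cases h' : G.Adj v z
      · exact Or.inl (Or.inr ⟨h'.symm, hzu⟩)
      · exact Or.inr ⟨hzu, hzv, h, h'⟩
  have ABD : ∀ z, (A z ∨ B z) → D z → False := by
    rintro z (h | h) hd
    · exact hd.2.2.1 h.1
    · exact hd.2.2.2 h.1.symm
  have attA : ∀ d, D d → ∃ a, A a ∧ G.Adj d a := by
    intro d hd
    obtain ⟨a, h1, h2⟩ := p3 h3 hd.1
    exact ⟨a, ⟨h2.symm, by rintro rfl; exact hd.2.2.2 h1.symm⟩, h1⟩
  have attB : ∀ d, D d → ∃ b, B b ∧ G.Adj d b := by
    intro d hd
    obtain ⟨a, h1, h2⟩ := p3 h3 hd.2.1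
    exact ⟨a, ⟨h2, by rintro rfl; exact hd.2.2.1 h1.symm⟩, h1⟩
  -- neighbours in `A` and `B` of adjacent vertices of `D`
  have edge : ∀ d d', D d → D d' → G.Adj d d' → ∀ a b, A a → B b → G.Adj d a → G.Adj d' b → a = b := by
    intro d d' hd hd' hdd a b ha hb h1 h2
    by_contra hne
    exact four a d d' b ha hb h1.symm hdd h2 (by rintro rfl; exact ABD _ (Or.inl ha) hd') hne
      (by rintro rfl; exact ABD _ (Or.inr hb) hd) hd.1 hd.2.1 hd'.1 hd'.2.1
  have edge2 : ∀ d d', D d → D d' → G.Adj d d' → ∃ e, (∀ z, (A z ∨ B z) → G.Adj d z → z = e) ∧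
      (∀ z, (A z ∨ B z) → G.Adj d' z → z = e) := by
    intro d d' hd hd' hdd
    obtain ⟨a, ha, hda⟩ := attA d hd
    obtain ⟨b, hb, hdb⟩ := attB d hd
    obtain ⟨a', ha', hda'⟩ := attA d' hd'
    obtain ⟨b', hb', hdb'⟩ := attB d' hd'
    have e1 := edge d d' hd hd' hdd a b' ha hb' hda hdb'
    have e2 := edge d' d hd' hd hdd.symm a' b ha' hb hda' hdb
    -- `a = b'` lies in `A` and in `B` and is adjacent to `d` and `d'`
    have e3 := edge d d' hd hd' hdd
    have e4 := edge d' d hd' hd hdd.symm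
    have g1 : a = b := by
      have hb2 : B a := e1 ▸ hb'
      have h1 : G.Adj d' a := e1 ▸ hdb'
      exact e4 a b ha hb h1 hdb
    refine ⟨a, ?_, ?_⟩
    · rintro z (hz | hz) h
      · exact (e3 z b' hz hb' h hdb').trans e1.symm
      · have h1 : G.Adj d' a := e1 ▸ hdb'
        exact (e4 a z ha hz h1 h).symm
    · rintro z (hz | hz) h
      · exact (e4 z b hz hb h hdb).trans g1.symm
      · exact (e3 a z ha hz hda h).symm
  -- `D` is independent
  have indep : ∀ d d', D d → D d' → ¬ G.Adj d d' := by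
    intro d d' hd hd' hdd
    obtain ⟨e, he, -⟩ := edge2 d d' hd hd' hdd
    refine cut (c := e) (S := fun z => D z ∧ (∃ z', D z' ∧ G.Adj z z') ∧
      ∀ a, (A a ∨ B a) → G.Adj z a → a = e) w0 w1 hadj hinj hsurj (fun h => h.1.1 rfl)
      (fun h => h.1.2.1 rfl) (d := d) ⟨hd, ⟨d', hd', hdd⟩, he⟩ ?_
    rintro z y ⟨hz, ⟨z', hz', hzz⟩, hze⟩ hzy
    have hyu : y ≠ u := by rintro rfl; exact hz.2.2.1 hzy.symm
    have hyv : y ≠ v := by rintro rfl; exact hz.2.2.2 hzy.symm
    rcases trich y hyu hyv with hy | hy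
    · exact Or.inr (hze y hy hzy)
    · left
      refine ⟨hy, ⟨z, hz, hzy.symm⟩, ?_⟩
      obtain ⟨e', h1, h2⟩ := edge2 z y hz hy hzy
      obtain ⟨a, ha, hza⟩ := attA z hz
      have : e' = e := (h1 a (Or.inl ha) hza).symm.trans (hze a (Or.inl ha) hza)
      rw [← this]
      exact h2
  -- `D` is empty
  have empty : ∀ d, ¬ D d := by
    intro d hd
    have hcd : c ≠ d := by rintro rfl; exact ABD _ (Or.inl hcA) hd
    obtain ⟨x, hx1, hx2⟩ := p3 h3 hcd
    have hxu : x ≠ u := by rintro rfl; exact hd.2.2.1 hx2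
    have hxv : x ≠ v := by rintro rfl; exact hd.2.2.2 hx2
    have hN : ∀ y, G.Adj d y → y = c ∨ y = x := by
      intro y hy
      by_contra hne
      push Not at hne
      have hyu : y ≠ u := by rintro rfl; exact hd.2.2.1 hy.symm
      have hyv : y ≠ v := by rintro rfl; exact hd.2.2.2 hy.symm
      have hyAB := (trich y hyu hyv).resolve_right (fun h => indep d y hd h hy)
      exact cc x d y hx1 hx2 hy hcd hne.1.symm hne.2.symm hxu hxv hd.1 hd.2.1 hyAB
    obtain ⟨x', x0', x1', xadj', xinj', xsurj'⟩ := ham hc hH hx1.ne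
    obtain ⟨p, hp, hpd⟩ := xsurj' d
    have p0 : p ≠ 0 := by rintro rfl; exact hcd (x0'.symm.trans hpd)
    have p1 : p ≠ n - 1 := by rintro rfl; exact hx2.ne (x1'.symm.trans hpd)
    have e1 := xadj' (p - 1) (by omega)
    rw [show p - 1 + 1 = p by omega, hpd] at e1
    have e2 := xadj' p (by omega)
    rw [hpd] at e2
    have I : ∀ i, i ≤ n - 1 → (x' i = c → i = 0) ∧ (x' i = x → i = n - 1) := fun i hi =>
      ⟨fun h => xinj' i 0 hi (by omega) (h.trans x0'.symm),
        fun h => xinj' i (n - 1) hi le_rfl (h.trans x1'.symm)⟩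
    obtain ⟨i1, i2⟩ := I (p - 1) (by omega)
    obtain ⟨j1, j2⟩ := I (p + 1) (by omega)
    rcases hN _ e1.symm with g | g <;> rcases hN _ e2 with g' | g' <;>
      (try have r1 := i1 g) <;> (try have r1 := i2 g) <;>
      (try have r2 := j1 g') <;> (try have r2 := j2 g') <;> omega
  have nu : ∀ i, 1 ≤ i → i ≤ n - 1 → w i ≠ u := by
    intro i hi hi' h
    have := hinj i 0 hi' (by omega) (h.trans w0.symm)
    omega
  have nv : ∀ i, i < n - 1 → w i ≠ v := by
    intro i hi h
    have := hinj i (n - 1) (by omega) le_rfl (h.trans w1.symm)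
    omega
  have AB : ∀ z, z ≠ u → z ≠ v → (A z ∨ B z) := fun z hzu hzv =>
    (trich z hzu hzv).resolve_right (empty z)
  have ne : ∀ i j, i ≤ n - 1 → j ≤ n - 1 → i ≠ j → w i ≠ w j := fun i j hi hj hij h =>
    hij (hinj i j hi hj h)
  -- the common neighbours of `u` and `v` are at the place `3`
  have place : ∀ c', A c' → B c' → ∀ p, p ≤ n - 1 → w p = c' → p = 3 ∧ n = 7 := by
    intro c' hA' hB' p hp hpc
    have p0 : p ≠ 0 := by rintro rfl; exact hA'.1.ne (w0.symm.trans hpc)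
    have p1 : p ≠ n - 1 := by rintro rfl; exact hA'.2 (hpc.symm.trans w1)
    have q1 : ¬ p + 3 ≤ n - 2 := by
      intro h
      have a1 := hadj p (by omega)
      have a2 := hadj (p + 1) (by omega)
      have a3 := hadj (p + 2) (by omega)
      rcases AB (w (p + 3)) (nu _ (by omega) (by omega)) (nv _ (by omega)) with hz | hz
      · exact four (w (p + 3)) (w (p + 2)) (w (p + 1)) (w p) hz (hpc ▸ hB') a3.symm a2.symm a1.symm
          (ne _ _ (by omega) (by omega) (by omega)) (ne _ _ (by omega) (by omega) (by omega))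
          (ne _ _ (by omega) (by omega) (by omega)) (nu _ (by omega) (by omega)) (nv _ (by omega))
          (nu _ (by omega) (by omega)) (nv _ (by omega))
      · exact four (w p) (w (p + 1)) (w (p + 2)) (w (p + 3)) (hpc ▸ hA') hz a1 a2 a3
          (ne _ _ (by omega) (by omega) (by omega)) (ne _ _ (by omega) (by omega) (by omega))
          (ne _ _ (by omega) (by omega) (by omega)) (nu _ (by omega) (by omega)) (nv _ (by omega))
          (nu _ (by omega) (by omega)) (nv _ (by omega))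
    have q2 : ¬ 4 ≤ p := by
      intro h
      have a1 := hadj (p - 1) (by omega)
      have a2 := hadj (p - 2) (by omega)
      have a3 := hadj (p - 3) (by omega)
      rw [show p - 1 + 1 = p by omega] at a1
      rw [show p - 2 + 1 = p - 1 by omega] at a2
      rw [show p - 3 + 1 = p - 2 by omega] at a3
      rcases AB (w (p - 3)) (nu _ (by omega) (by omega)) (nv _ (by omega)) with hz | hz
      · exact four (w (p - 3)) (w (p - 2)) (w (p - 1)) (w p) hz (hpc ▸ hB') a3 a2 a1
          (ne _ _ (by omega) (by omega) (by omega)) (ne _ _ (by omega) (by omega) (by omega))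
          (ne _ _ (by omega) (by omega) (by omega)) (nu _ (by omega) (by omega)) (nv _ (by omega))
          (nu _ (by omega) (by omega)) (nv _ (by omega))
      · exact four (w p) (w (p - 1)) (w (p - 2)) (w (p - 3)) (hpc ▸ hA') hz a1.symm a2.symm a3.symm
          (ne _ _ (by omega) (by omega) (by omega)) (ne _ _ (by omega) (by omega) (by omega))
          (ne _ _ (by omega) (by omega) (by omega)) (nu _ (by omega) (by omega)) (nv _ (by omega))
          (nu _ (by omega) (by omega)) (nv _ (by omega))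
    omega
  obtain ⟨p, hp, hpc⟩ := hsurj c
  obtain ⟨rfl, rfl⟩ := place c hcA hcB p hp hpc
  have a0 := hadj 0 (by omega)
  have a1 := hadj 1 (by omega)
  have a2 := hadj 2 (by omega)
  have a3 := hadj 3 (by omega)
  have a4 := hadj 4 (by omega)
  have a5 := hadj 5 (by omega)
  rw [w0] at a0
  simp only [zero_add, show (1 + 1 : ℕ) = 2 from rfl, show (2 + 1 : ℕ) = 3 from rfl,
    show (3 + 1 : ℕ) = 4 from rfl, show (4 + 1 : ℕ) = 5 from rfl, show (5 + 1 : ℕ) = 6 from rfl,
    show (7 - 1 : ℕ) = 6 from rfl, hpc] at a0 a1 a2 a3 a4 a5 w1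
  rw [w1] at a5
  have A1 : A (w 1) := ⟨a0, nv 1 (by omega)⟩
  have B5 : B (w 5) := ⟨a5, nu 5 (by omega) (by omega)⟩
  have only : ∀ i, i ≤ 6 → i ≠ 3 → A (w i) → ¬ B (w i) := by
    intro i hi hi3 hAi hBi
    exact hi3 (place (w i) hAi hBi i hi rfl).1
  have n1c : w 1 ≠ c := by rw [← hpc]; exact ne _ _ (by omega) (by omega) (by omega)
  have n2c : w 2 ≠ c := by rw [← hpc]; exact ne _ _ (by omega) (by omega) (by omega)
  have n4c : w 4 ≠ c := by rw [← hpc]; exact ne _ _ (by omega) (by omega) (by omega)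
  have n5c : w 5 ≠ c := by rw [← hpc]; exact ne _ _ (by omega) (by omega) (by omega)
  have NB4 : ¬ B (w 4) := fun h => four (w 1) (w 2) c (w 4) A1 h a1 a2 a3 n1c
    (ne _ _ (by omega) (by omega) (by omega)) (ne _ _ (by omega) (by omega) (by omega))
    (nu _ (by omega) (by omega)) (nv _ (by omega)) huc.ne' hcv.ne
  have A4 : A (w 4) := (AB _ (nu _ (by omega) (by omega)) (nv _ (by omega))).resolve_right NB4
  have NA2 : ¬ A (w 2) := fun h => four (w 2) c (w 4) (w 5) h B5 a2 a3 a4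
    (ne _ _ (by omega) (by omega) (by omega)) (ne _ _ (by omega) (by omega) (by omega)) n5c.symm
    huc.ne' hcv.ne (nu _ (by omega) (by omega)) (nv _ (by omega))
  have B2 : B (w 2) := (AB _ (nu _ (by omega) (by omega)) (nv _ (by omega))).resolve_left NA2
  obtain ⟨z, hz1, hz2⟩ := p3 h3 (ne 4 5 (by omega) (by omega) (by omega))
  have hzu : z ≠ u := by
    rintro rfl
    exact only 5 (by omega) (by omega) ⟨hz2, nv 5 (by omega)⟩ B5
  have hzv : z ≠ v := by
    rintro rfl
    exact NB4 ⟨hz1, nu 4 (by omega) (by omega)⟩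
  obtain ⟨i, hi, rfl⟩ := hsurj z
  have i0 : i ≠ 0 := by rintro rfl; exact hzu w0
  have i6 : i ≠ 6 := by rintro rfl; exact hzv w1
  have i4 : i ≠ 4 := by rintro rfl; exact G.loopless.irrefl _ hz1
  have i5 : i ≠ 5 := by rintro rfl; exact G.loopless.irrefl _ hz2
  have : i = 1 ∨ i = 2 ∨ i = 3 := by omega
  rcases this with rfl | rfl | rfl
  · exact cc (w 4) (w 1) (w 2) a3 hz1 a1 n1c.symm n2c.symm
      (ne _ _ (by omega) (by omega) (by omega)) (nu _ (by omega) (by omega)) (nv _ (by omega))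
      (nu _ (by omega) (by omega)) (nv _ (by omega)) (Or.inr B2)
  · exact cc (w 2) (w 4) (w 5) a2.symm hz1.symm a4 n4c.symm n5c.symm
      (ne _ _ (by omega) (by omega) (by omega)) (nu _ (by omega) (by omega)) (nv _ (by omega))
      (nu _ (by omega) (by omega)) (nv _ (by omega)) (Or.inr B5)
  · rw [hpc] at hz1 hz2
    exact four (w 4) (w 5) c (w 2) A4 B2 a4 hz2.symm a2.symm n4c
      (ne _ _ (by omega) (by omega) (by omega)) (ne _ _ (by omega) (by omega) (by omega))
      (nu _ (by omega) (by omega)) (nv _ (by omega)) huc.ne' hcv.ne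

end Pool.Agent.E8helper48.PO
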