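import Mathlib

/-!
# A family of graphs with paths of all orders except five between all pairs of vertices

Base graph on eleven vertices `0, …, 10`; the vertices `11, 12, …` are closed twins of `10`.
-/

set_option autoImplicit false

namespace Pool.Agent.E8helper48.PO

/-- neighbours in the base graph -/
def nb : ℕ → List ℕ
  | 0 => [1, 2, 3, 4]
  | 1 => [0, 2, 3, 4]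
  | 2 => [0, 1, 4, 5, 6]
  | 3 => [0, 1, 9, 10]
  | 4 => [0, 1, 2, 7, 8]
  | 5 => [2, 6, 7, 8, 9, 10]
  | 6 => [2, 5, 7, 8, 9, 10]
  | 7 => [4, 5, 6, 8, 9, 10]
  | 8 => [4, 5, 6, 7, 9, 10]
  | 9 => [3, 5, 6, 7, 8, 10]
  | _ => [3, 5, 6, 7, 8, 9]

/-- adjacency -/
def R (x y : ℕ) : Prop := min y 10 ∈ nb (min x 10) ∨ (x ≠ y ∧ 10 ≤ x ∧ 10 ≤ y)

instance (x y : ℕ) : Decidable (R x y) := by unfold R; infer_instance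

theorem nb_symm : ∀ a < 11, ∀ b < 11, b ∈ nb a → a ∈ nb b := by decide

theorem nb_irrefl : ∀ a < 11, a ∉ nb a := by decide

theorem R_symm {x y : ℕ} (h : R x y) : R y x := by
  rcases h with h | ⟨h1, h2, h3⟩
  · exact Or.inl (nb_symm _ (by omega) _ (by omega) h)
  · exact Or.inr ⟨h1.symm, h3, h2⟩

theorem R_irrefl (x : ℕ) : ¬ R x x := by
  rintro (h | ⟨h, -, -⟩)
  · exact nb_irrefl _ (by omega) h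
  · exact h rfl

/-- closed twins -/
theorem R_twin {x y z : ℕ} (hx : 10 ≤ x) (hy : 10 ≤ y) (h : R x z) (hz : z ≠ y) : R y z := by
  rcases h with h | ⟨h1, h2, h3⟩
  · left
    have e1 : min x 10 = 10 := by omega
    have e2 : min y 10 = 10 := by omega
    rw [e2]; rwa [e1] at h
  · exact Or.inr ⟨hz.symm, hy, h3⟩

/-- A path of order `i` from `x` to `y` inside `{0, …, n - 1}`, as a list. -/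
def LP (n x y i : ℕ) : Prop := ∃ l : List ℕ, l.length = i ∧ l.Nodup ∧ (∀ z ∈ l, z < n) ∧
  l.IsChain R ∧ l.head? = some x ∧ l.getLast? = some y

/-- all the paths of the base graph -/
def T : List (List (List (List ℕ))) :=
  [
    [[[0, 2, 1], [0, 2, 4, 1], [0, 2, 5, 7, 4, 1], [0, 2, 4, 7, 9, 3, 1], [0, 2, 4, 7, 5, 9, 3, 1],
      [0, 2, 4, 7, 5, 6, 9, 3, 1], [0, 2, 4, 7, 5, 6, 8, 9, 3, 1], [0, 2, 4, 7, 5, 6, 8, 9, 10, 3,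
      1]],
     [[0, 1, 2], [0, 1, 4, 2], [0, 1, 3, 9, 5, 2], [0, 1, 3, 9, 5, 6, 2], [0, 1, 3, 9, 5, 7, 4, 2],
      [0, 1, 3, 9, 5, 6, 7, 4, 2], [0, 1, 3, 9, 5, 6, 7, 8, 4, 2], [0, 1, 3, 9, 5, 6, 7, 10, 8, 4,
      2]],
     [[0, 1, 3], [0, 2, 1, 3], [0, 1, 2, 5, 9, 3], [0, 1, 2, 4, 7, 9, 3], [0, 1, 2, 4, 7, 5, 9, 3],
      [0, 1, 2, 4, 7, 5, 6, 9, 3], [0, 1, 2, 4, 7, 5, 6, 8, 9, 3], [0, 1, 2, 4, 7, 5, 6, 8, 9, 10,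
      3]],
     [[0, 1, 4], [0, 1, 2, 4], [0, 1, 2, 5, 7, 4], [0, 1, 2, 5, 6, 7, 4], [0, 1, 2, 5, 6, 7, 8, 4],
      [0, 1, 2, 5, 6, 7, 9, 8, 4], [0, 1, 2, 5, 6, 7, 9, 10, 8, 4], [0, 1, 2, 5, 6, 7, 9, 3, 10, 8,
      4]],
     [[0, 2, 5], [0, 1, 2, 5], [0, 1, 2, 4, 7, 5], [0, 1, 2, 4, 7, 6, 5], [0, 1, 2, 4, 7, 6, 8, 5],
      [0, 1, 2, 4, 7, 6, 8, 9, 5], [0, 1, 2, 4, 7, 6, 8, 9, 10, 5], [0, 1, 2, 4, 7, 6, 8, 9, 3, 10,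
      5]],
     [[0, 2, 6], [0, 1, 2, 6], [0, 1, 2, 4, 7, 6], [0, 1, 2, 4, 7, 5, 6], [0, 1, 2, 4, 7, 5, 8, 6],
      [0, 1, 2, 4, 7, 5, 8, 9, 6], [0, 1, 2, 4, 7, 5, 8, 9, 10, 6], [0, 1, 2, 4, 7, 5, 8, 9, 3, 10,
      6]],
     [[0, 4, 7], [0, 1, 4, 7], [0, 1, 2, 4, 8, 7], [0, 1, 2, 4, 8, 5, 7], [0, 1, 2, 4, 8, 5, 6, 7],
      [0, 1, 2, 4, 8, 5, 6, 9, 7], [0, 1, 2, 4, 8, 5, 6, 9, 10, 7], [0, 1, 2, 4, 8, 5, 6, 9, 3, 10,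
      7]],
     [[0, 4, 8], [0, 1, 4, 8], [0, 1, 2, 4, 7, 8], [0, 1, 2, 4, 7, 5, 8], [0, 1, 2, 4, 7, 5, 6, 8],
      [0, 1, 2, 4, 7, 5, 6, 9, 8], [0, 1, 2, 4, 7, 5, 6, 9, 10, 8], [0, 1, 2, 4, 7, 5, 6, 9, 3, 10,
      8]],
     [[0, 3, 9], [0, 1, 3, 9], [0, 1, 2, 4, 7, 9], [0, 1, 2, 4, 7, 5, 9], [0, 1, 2, 4, 7, 5, 6, 9],
      [0, 1, 2, 4, 7, 5, 6, 8, 9], [0, 1, 2, 4, 7, 5, 6, 8, 10, 9], [0, 1, 2, 4, 7, 5, 6, 8, 10, 3,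
      9]],
     [[0, 3, 10], [0, 1, 3, 10], [0, 1, 2, 4, 7, 10], [0, 1, 2, 4, 7, 5, 10], [0, 1, 2, 4, 7, 5, 6,
      10], [0, 1, 2, 4, 7, 5, 6, 8, 10], [0, 1, 2, 4, 7, 5, 6, 8, 9, 10], [0, 1, 2, 4, 7, 5, 6, 8,
      9, 3, 10]]],
    [[[1, 0, 2], [1, 0, 4, 2], [1, 0, 3, 9, 5, 2], [1, 0, 3, 9, 5, 6, 2], [1, 0, 3, 9, 5, 7, 4, 2],
      [1, 0, 3, 9, 5, 6, 7, 4, 2], [1, 0, 3, 9, 5, 6, 7, 8, 4, 2], [1, 0, 3, 9, 5, 6, 7, 10, 8, 4,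
      2]],
     [[1, 0, 3], [1, 2, 0, 3], [1, 0, 2, 5, 9, 3], [1, 0, 2, 4, 7, 9, 3], [1, 0, 2, 4, 7, 5, 9, 3],
      [1, 0, 2, 4, 7, 5, 6, 9, 3], [1, 0, 2, 4, 7, 5, 6, 8, 9, 3], [1, 0, 2, 4, 7, 5, 6, 8, 9, 10,
      3]],
     [[1, 0, 4], [1, 0, 2, 4], [1, 0, 2, 5, 7, 4], [1, 0, 2, 5, 6, 7, 4], [1, 0, 2, 5, 6, 7, 8, 4],
      [1, 0, 2, 5, 6, 7, 9, 8, 4], [1, 0, 2, 5, 6, 7, 9, 10, 8, 4], [1, 0, 2, 5, 6, 7, 9, 3, 10, 8,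
      4]],
     [[1, 2, 5], [1, 0, 2, 5], [1, 0, 2, 4, 7, 5], [1, 0, 2, 4, 7, 6, 5], [1, 0, 2, 4, 7, 6, 8, 5],
      [1, 0, 2, 4, 7, 6, 8, 9, 5], [1, 0, 2, 4, 7, 6, 8, 9, 10, 5], [1, 0, 2, 4, 7, 6, 8, 9, 3, 10,
      5]],
     [[1, 2, 6], [1, 0, 2, 6], [1, 0, 2, 4, 7, 6], [1, 0, 2, 4, 7, 5, 6], [1, 0, 2, 4, 7, 5, 8, 6],
      [1, 0, 2, 4, 7, 5, 8, 9, 6], [1, 0, 2, 4, 7, 5, 8, 9, 10, 6], [1, 0, 2, 4, 7, 5, 8, 9, 3, 10,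
      6]],
     [[1, 4, 7], [1, 0, 4, 7], [1, 0, 2, 4, 8, 7], [1, 0, 2, 4, 8, 5, 7], [1, 0, 2, 4, 8, 5, 6, 7],
      [1, 0, 2, 4, 8, 5, 6, 9, 7], [1, 0, 2, 4, 8, 5, 6, 9, 10, 7], [1, 0, 2, 4, 8, 5, 6, 9, 3, 10,
      7]],
     [[1, 4, 8], [1, 0, 4, 8], [1, 0, 2, 4, 7, 8], [1, 0, 2, 4, 7, 5, 8], [1, 0, 2, 4, 7, 5, 6, 8],
      [1, 0, 2, 4, 7, 5, 6, 9, 8], [1, 0, 2, 4, 7, 5, 6, 9, 10, 8], [1, 0, 2, 4, 7, 5, 6, 9, 3, 10,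
      8]],
     [[1, 3, 9], [1, 0, 3, 9], [1, 0, 2, 4, 7, 9], [1, 0, 2, 4, 7, 5, 9], [1, 0, 2, 4, 7, 5, 6, 9],
      [1, 0, 2, 4, 7, 5, 6, 8, 9], [1, 0, 2, 4, 7, 5, 6, 8, 10, 9], [1, 0, 2, 4, 7, 5, 6, 8, 10, 3,
      9]],
     [[1, 3, 10], [1, 0, 3, 10], [1, 0, 2, 4, 7, 10], [1, 0, 2, 4, 7, 5, 10], [1, 0, 2, 4, 7, 5, 6,
      10], [1, 0, 2, 4, 7, 5, 6, 8, 10], [1, 0, 2, 4, 7, 5, 6, 8, 9, 10], [1, 0, 2, 4, 7, 5, 6, 8,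
      9, 3, 10]]],
    [[[2, 0, 3], [2, 0, 1, 3], [2, 0, 4, 7, 9, 3], [2, 0, 1, 4, 7, 9, 3], [2, 0, 1, 4, 7, 5, 9, 3],
      [2, 0, 1, 4, 7, 5, 6, 9, 3], [2, 0, 1, 4, 7, 5, 6, 8, 9, 3], [2, 0, 1, 4, 7, 5, 6, 8, 9, 10,
      3]],
     [[2, 0, 4], [2, 0, 1, 4], [2, 0, 3, 9, 7, 4], [2, 0, 1, 3, 9, 7, 4], [2, 0, 1, 3, 9, 5, 7, 4],
      [2, 0, 1, 3, 9, 5, 6, 7, 4], [2, 0, 1, 3, 9, 5, 6, 7, 8, 4], [2, 0, 1, 3, 9, 5, 6, 7, 10, 8,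
      4]],
     [[2, 6, 5], [2, 4, 7, 5], [2, 0, 1, 3, 9, 5], [2, 0, 1, 3, 9, 6, 5], [2, 0, 1, 3, 9, 6, 7, 5],
      [2, 0, 1, 3, 9, 6, 7, 8, 5], [2, 0, 1, 3, 9, 6, 7, 4, 8, 5], [2, 0, 1, 3, 9, 6, 7, 4, 8, 10,
      5]],
     [[2, 5, 6], [2, 4, 7, 6], [2, 0, 1, 3, 9, 6], [2, 0, 1, 3, 9, 5, 6], [2, 0, 1, 3, 9, 5, 7, 6],
      [2, 0, 1, 3, 9, 5, 7, 8, 6], [2, 0, 1, 3, 9, 5, 7, 4, 8, 6], [2, 0, 1, 3, 9, 5, 7, 4, 8, 10,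
      6]],
     [[2, 4, 7], [2, 0, 4, 7], [2, 0, 1, 3, 9, 7], [2, 0, 1, 3, 9, 5, 7], [2, 0, 1, 3, 9, 5, 6, 7],
      [2, 0, 1, 3, 9, 5, 6, 8, 7], [2, 0, 1, 3, 9, 5, 6, 8, 4, 7], [2, 0, 1, 3, 9, 5, 6, 10, 8, 4,
      7]],
     [[2, 4, 8], [2, 0, 4, 8], [2, 0, 1, 3, 9, 8], [2, 0, 1, 3, 9, 5, 8], [2, 0, 1, 3, 9, 5, 6, 8],
      [2, 0, 1, 3, 9, 5, 6, 7, 8], [2, 0, 1, 3, 9, 5, 6, 7, 4, 8], [2, 0, 1, 3, 9, 5, 6, 10, 7, 4,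
      8]],
     [[2, 5, 9], [2, 0, 3, 9], [2, 0, 1, 3, 10, 9], [2, 0, 1, 3, 10, 5, 9], [2, 0, 1, 3, 10, 5, 6,
      9], [2, 0, 1, 3, 10, 5, 6, 7, 9], [2, 0, 1, 3, 10, 5, 6, 7, 8, 9], [2, 0, 1, 3, 10, 5, 6, 7,
      4, 8, 9]],
     [[2, 5, 10], [2, 0, 3, 10], [2, 0, 1, 3, 9, 10], [2, 0, 1, 3, 9, 5, 10], [2, 0, 1, 3, 9, 5, 6,
      10], [2, 0, 1, 3, 9, 5, 6, 7, 10], [2, 0, 1, 3, 9, 5, 6, 7, 8, 10], [2, 0, 1, 3, 9, 5, 6, 7,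
      4, 8, 10]]],
    [[[3, 0, 4], [3, 0, 1, 4], [3, 0, 2, 5, 7, 4], [3, 0, 1, 2, 5, 7, 4], [3, 0, 1, 2, 5, 6, 7, 4],
      [3, 0, 1, 2, 5, 6, 7, 8, 4], [3, 0, 1, 2, 5, 6, 7, 9, 8, 4], [3, 0, 1, 2, 5, 6, 7, 9, 10, 8,
      4]],
     [[3, 9, 5], [3, 0, 2, 5], [3, 0, 1, 2, 6, 5], [3, 0, 1, 2, 4, 7, 5], [3, 0, 1, 2, 4, 7, 6, 5],
      [3, 0, 1, 2, 4, 7, 6, 8, 5], [3, 0, 1, 2, 4, 7, 6, 8, 9, 5], [3, 0, 1, 2, 4, 7, 6, 8, 9, 10,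
      5]],
     [[3, 9, 6], [3, 0, 2, 6], [3, 0, 1, 2, 5, 6], [3, 0, 1, 2, 4, 7, 6], [3, 0, 1, 2, 4, 7, 5, 6],
      [3, 0, 1, 2, 4, 7, 5, 8, 6], [3, 0, 1, 2, 4, 7, 5, 8, 9, 6], [3, 0, 1, 2, 4, 7, 5, 8, 9, 10,
      6]],
     [[3, 9, 7], [3, 0, 4, 7], [3, 0, 1, 2, 4, 7], [3, 0, 1, 2, 4, 8, 7], [3, 0, 1, 2, 4, 8, 5, 7],
      [3, 0, 1, 2, 4, 8, 5, 6, 7], [3, 0, 1, 2, 4, 8, 5, 6, 9, 7], [3, 0, 1, 2, 4, 8, 5, 6, 9, 10,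
      7]],
     [[3, 9, 8], [3, 0, 4, 8], [3, 0, 1, 2, 4, 8], [3, 0, 1, 2, 4, 7, 8], [3, 0, 1, 2, 4, 7, 5, 8],
      [3, 0, 1, 2, 4, 7, 5, 6, 8], [3, 0, 1, 2, 4, 7, 5, 6, 9, 8], [3, 0, 1, 2, 4, 7, 5, 6, 9, 10,
      8]],
     [[3, 10, 9], [3, 10, 5, 9], [3, 0, 1, 2, 5, 9], [3, 0, 1, 2, 4, 7, 9], [3, 0, 1, 2, 4, 7, 5,
      9], [3, 0, 1, 2, 4, 7, 5, 6, 9], [3, 0, 1, 2, 4, 7, 5, 6, 8, 9], [3, 0, 1, 2, 4, 7, 5, 6, 8,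
      10, 9]],
     [[3, 9, 10], [3, 9, 5, 10], [3, 0, 1, 2, 5, 10], [3, 0, 1, 2, 4, 7, 10], [3, 0, 1, 2, 4, 7, 5,
      10], [3, 0, 1, 2, 4, 7, 5, 6, 10], [3, 0, 1, 2, 4, 7, 5, 6, 8, 10], [3, 0, 1, 2, 4, 7, 5, 6,
      8, 9, 10]]],
    [[[4, 2, 5], [4, 0, 2, 5], [4, 0, 1, 2, 6, 5], [4, 0, 1, 2, 6, 7, 5], [4, 0, 1, 2, 6, 7, 8, 5],
      [4, 0, 1, 2, 6, 7, 8, 9, 5], [4, 0, 1, 2, 6, 7, 8, 9, 10, 5], [4, 0, 1, 2, 6, 7, 8, 9, 3, 10,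
      5]],
     [[4, 2, 6], [4, 0, 2, 6], [4, 0, 1, 2, 5, 6], [4, 0, 1, 2, 5, 7, 6], [4, 0, 1, 2, 5, 7, 8, 6],
      [4, 0, 1, 2, 5, 7, 8, 9, 6], [4, 0, 1, 2, 5, 7, 8, 9, 10, 6], [4, 0, 1, 2, 5, 7, 8, 9, 3, 10,
      6]],
     [[4, 8, 7], [4, 2, 5, 7], [4, 0, 1, 2, 5, 7], [4, 0, 1, 2, 5, 6, 7], [4, 0, 1, 2, 5, 6, 8, 7],
      [4, 0, 1, 2, 5, 6, 8, 9, 7], [4, 0, 1, 2, 5, 6, 8, 9, 10, 7], [4, 0, 1, 2, 5, 6, 8, 9, 3, 10,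
      7]],
     [[4, 7, 8], [4, 2, 5, 8], [4, 0, 1, 2, 5, 8], [4, 0, 1, 2, 5, 6, 8], [4, 0, 1, 2, 5, 6, 7, 8],
      [4, 0, 1, 2, 5, 6, 7, 9, 8], [4, 0, 1, 2, 5, 6, 7, 9, 10, 8], [4, 0, 1, 2, 5, 6, 7, 9, 3, 10,
      8]],
     [[4, 7, 9], [4, 0, 3, 9], [4, 0, 1, 2, 5, 9], [4, 0, 1, 2, 5, 6, 9], [4, 0, 1, 2, 5, 6, 7, 9],
      [4, 0, 1, 2, 5, 6, 7, 8, 9], [4, 0, 1, 2, 5, 6, 7, 8, 10, 9], [4, 0, 1, 2, 5, 6, 7, 8, 10, 3,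
      9]],
     [[4, 7, 10], [4, 0, 3, 10], [4, 0, 1, 2, 5, 10], [4, 0, 1, 2, 5, 6, 10], [4, 0, 1, 2, 5, 6, 7,
      10], [4, 0, 1, 2, 5, 6, 7, 8, 10], [4, 0, 1, 2, 5, 6, 7, 8, 9, 10], [4, 0, 1, 2, 5, 6, 7, 8,
      9, 3, 10]]],
    [[[5, 2, 6], [5, 7, 8, 6], [5, 2, 0, 3, 9, 6], [5, 2, 0, 1, 3, 9, 6], [5, 2, 0, 1, 3, 9, 7, 6],
      [5, 2, 0, 1, 3, 9, 7, 8, 6], [5, 2, 0, 1, 3, 9, 7, 4, 8, 6], [5, 2, 0, 1, 3, 9, 7, 4, 8, 10,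
      6]],
     [[5, 6, 7], [5, 2, 4, 7], [5, 2, 0, 1, 4, 7], [5, 2, 0, 1, 3, 9, 7], [5, 2, 0, 1, 3, 9, 6, 7],
      [5, 2, 0, 1, 3, 9, 6, 8, 7], [5, 2, 0, 1, 3, 9, 6, 8, 4, 7], [5, 2, 0, 1, 3, 9, 6, 10, 8, 4,
      7]],
     [[5, 6, 8], [5, 2, 4, 8], [5, 2, 0, 1, 4, 8], [5, 2, 0, 1, 3, 9, 8], [5, 2, 0, 1, 3, 9, 6, 8],
      [5, 2, 0, 1, 3, 9, 6, 7, 8], [5, 2, 0, 1, 3, 9, 6, 7, 4, 8], [5, 2, 0, 1, 3, 9, 6, 10, 7, 4,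
      8]],
     [[5, 6, 9], [5, 2, 6, 9], [5, 2, 0, 1, 3, 9], [5, 2, 0, 1, 3, 10, 9], [5, 2, 0, 1, 3, 10, 6,
      9], [5, 2, 0, 1, 3, 10, 6, 7, 9], [5, 2, 0, 1, 3, 10, 6, 7, 8, 9], [5, 2, 0, 1, 3, 10, 6, 7,
      4, 8, 9]],
     [[5, 6, 10], [5, 2, 6, 10], [5, 2, 0, 1, 3, 10], [5, 2, 0, 1, 3, 9, 10], [5, 2, 0, 1, 3, 9, 6,
      10], [5, 2, 0, 1, 3, 9, 6, 7, 10], [5, 2, 0, 1, 3, 9, 6, 7, 8, 10], [5, 2, 0, 1, 3, 9, 6, 7,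
      4, 8, 10]]],
    [[[6, 5, 7], [6, 2, 4, 7], [6, 2, 0, 1, 4, 7], [6, 2, 0, 1, 3, 9, 7], [6, 2, 0, 1, 3, 9, 5, 7],
      [6, 2, 0, 1, 3, 9, 5, 8, 7], [6, 2, 0, 1, 3, 9, 5, 8, 4, 7], [6, 2, 0, 1, 3, 9, 5, 10, 8, 4,
      7]],
     [[6, 5, 8], [6, 2, 4, 8], [6, 2, 0, 1, 4, 8], [6, 2, 0, 1, 3, 9, 8], [6, 2, 0, 1, 3, 9, 5, 8],
      [6, 2, 0, 1, 3, 9, 5, 7, 8], [6, 2, 0, 1, 3, 9, 5, 7, 4, 8], [6, 2, 0, 1, 3, 9, 5, 10, 7, 4,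
      8]],
     [[6, 5, 9], [6, 2, 5, 9], [6, 2, 0, 1, 3, 9], [6, 2, 0, 1, 3, 10, 9], [6, 2, 0, 1, 3, 10, 5,
      9], [6, 2, 0, 1, 3, 10, 5, 7, 9], [6, 2, 0, 1, 3, 10, 5, 7, 8, 9], [6, 2, 0, 1, 3, 10, 5, 7,
      4, 8, 9]],
     [[6, 5, 10], [6, 2, 5, 10], [6, 2, 0, 1, 3, 10], [6, 2, 0, 1, 3, 9, 10], [6, 2, 0, 1, 3, 9, 5,
      10], [6, 2, 0, 1, 3, 9, 5, 7, 10], [6, 2, 0, 1, 3, 9, 5, 7, 8, 10], [6, 2, 0, 1, 3, 9, 5, 7,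
      4, 8, 10]]],
    [[[7, 4, 8], [7, 5, 6, 8], [7, 4, 0, 2, 5, 8], [7, 4, 0, 1, 2, 5, 8], [7, 4, 0, 1, 2, 5, 6, 8],
      [7, 4, 0, 1, 2, 5, 6, 9, 8], [7, 4, 0, 1, 2, 5, 6, 9, 10, 8], [7, 4, 0, 1, 2, 5, 6, 9, 3, 10,
      8]],
     [[7, 5, 9], [7, 4, 8, 9], [7, 4, 0, 1, 3, 9], [7, 4, 0, 1, 2, 5, 9], [7, 4, 0, 1, 2, 5, 6, 9],
      [7, 4, 0, 1, 2, 5, 6, 8, 9], [7, 4, 0, 1, 2, 5, 6, 8, 10, 9], [7, 4, 0, 1, 2, 5, 6, 8, 10, 3,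
      9]],
     [[7, 5, 10], [7, 4, 8, 10], [7, 4, 0, 1, 3, 10], [7, 4, 0, 1, 2, 5, 10], [7, 4, 0, 1, 2, 5, 6,
      10], [7, 4, 0, 1, 2, 5, 6, 8, 10], [7, 4, 0, 1, 2, 5, 6, 8, 9, 10], [7, 4, 0, 1, 2, 5, 6, 8,
      9, 3, 10]]],
    [[[8, 5, 9], [8, 4, 7, 9], [8, 4, 0, 1, 3, 9], [8, 4, 0, 1, 2, 5, 9], [8, 4, 0, 1, 2, 5, 6, 9],
      [8, 4, 0, 1, 2, 5, 6, 7, 9], [8, 4, 0, 1, 2, 5, 6, 7, 10, 9], [8, 4, 0, 1, 2, 5, 6, 7, 10, 3,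
      9]],
     [[8, 5, 10], [8, 4, 7, 10], [8, 4, 0, 1, 3, 10], [8, 4, 0, 1, 2, 5, 10], [8, 4, 0, 1, 2, 5, 6,
      10], [8, 4, 0, 1, 2, 5, 6, 7, 10], [8, 4, 0, 1, 2, 5, 6, 7, 9, 10], [8, 4, 0, 1, 2, 5, 6, 7,
      9, 3, 10]]],
    [[[9, 3, 10], [9, 5, 6, 10], [9, 3, 0, 2, 5, 10], [9, 3, 0, 1, 2, 5, 10], [9, 3, 0, 1, 2, 4, 7,
      10], [9, 3, 0, 1, 2, 4, 7, 5, 10], [9, 3, 0, 1, 2, 4, 7, 5, 6, 10], [9, 3, 0, 1, 2, 4, 7, 5,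
      6, 8, 10]]],
    []]

/-- the index of the order `i` in the table -/
def oi (i : ℕ) : ℕ := if i ≤ 4 then i - 3 else i - 4

/-- look up -/
def wl (x y i : ℕ) : List ℕ := ((((T.getD x []).getD (y - x - 1) [])).getD (oi i) [])

/-- the check of one entry -/
def chk (x y i : ℕ) : Bool := decide (¬ (x < y ∧ 3 ≤ i ∧ i ≠ 5) ∨
    ((wl x y i).length = i ∧ (wl x y i).Nodup ∧ (∀ z ∈ wl x y i, z < 11) ∧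
      (wl x y i).IsChain R ∧ (wl x y i).head? = some x ∧ (wl x y i).getLast? = some y))

theorem base_ok' : ∀ x y : Fin 11, ∀ i : Fin 12, chk x y i = true := by
  decide +kernel

theorem base_ok (x : ℕ) (hx : x < 11) (y : ℕ) (hy : y < 11) (i : ℕ) (hi : i < 12) :
    ¬ (x < y ∧ 3 ≤ i ∧ i ≠ 5) ∨
    ((wl x y i).length = i ∧ (wl x y i).Nodup ∧ (∀ z ∈ wl x y i, z < 11) ∧
      (wl x y i).IsChain R ∧ (wl x y i).head? = some x ∧ (wl x y i).getLast? = some y) :=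
  of_decide_eq_true (base_ok' ⟨x, hx⟩ ⟨y, hy⟩ ⟨i, hi⟩)

theorem LP_symm {n x y i : ℕ} (h : LP n x y i) : LP n y x i := by
  obtain ⟨l, h1, h2, h3, h4, h5, h6⟩ := h
  refine ⟨l.reverse, by simpa using h1, List.nodup_reverse.2 h2, fun z hz => h3 z (List.mem_reverse.1 hz),
    ?_, by simpa using h6, by simpa using h5⟩
  rw [List.isChain_reverse]
  exact h4.imp fun a b h => R_symm h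

theorem base {x y i : ℕ} (hx : x < 11) (hy : y < 11) (hxy : x ≠ y) (hi : 3 ≤ i) (hi' : i ≤ 11)
    (h5 : i ≠ 5) : LP 11 x y i := by
  rcases lt_or_gt_of_ne hxy with h | h
  · exact ⟨_, (base_ok x hx y hy i (by omega)).resolve_left (fun h' => h' ⟨h, hi, h5⟩)⟩
  · exact LP_symm ⟨_, (base_ok y hy x hx i (by omega)).resolve_left (fun h' => h' ⟨h, hi, h5⟩)⟩

end Pool.Agent.E8helper48.PO
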