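import Mathlib

/-!
# Graphs without a path of order five have at least eleven vertices

If all pairs of vertices of a graph with `n ≥ 6` vertices are joined by paths of the orders `3`, `4`
and `n`, and some pair is not joined by a path of order `5`, then `n ≥ 11`.
-/

set_option autoImplicit false

namespace Pool.Agent.E8helper48.PO

open SimpleGraph

/-- any two vertices are joined by a path with exactly `i` vertices -/
def HasP {V : Type*} (G : SimpleGraph V) (i : ℕ) : Prop :=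
  ∀ x y : V, x ≠ y → ∃ p : G.Walk x y, p.IsPath ∧ p.length + 1 = i

variable {V : Type*} {G : SimpleGraph V}

theorem p3 (h : HasP G 3) {x y : V} (hxy : x ≠ y) : ∃ z, G.Adj x z ∧ G.Adj z y := by
  obtain ⟨p, hp, hl⟩ := h x y hxy
  have h2 : p.length = 2 := by omega
  have a1 := p.adj_getVert_succ (i := 0) (by omega)
  have a2 := p.adj_getVert_succ (i := 1) (by omega)
  have e : p.getVert 2 = y := by rw [← h2]; exact p.getVert_length
  rw [Walk.getVert_zero] at a1
  rw [show (1 + 1 : ℕ) = 2 from rfl, e] at a2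
  exact ⟨p.getVert 1, a1, a2⟩

theorem p4 (h : HasP G 4) {x y : V} (hxy : x ≠ y) :
    ∃ a b, G.Adj x a ∧ G.Adj a b ∧ G.Adj b y ∧ a ≠ y ∧ b ≠ x := by
  obtain ⟨p, hp, hl⟩ := h x y hxy
  have h2 : p.length = 3 := by omega
  have a1 := p.adj_getVert_succ (i := 0) (by omega)
  have a2 := p.adj_getVert_succ (i := 1) (by omega)
  have a3 := p.adj_getVert_succ (i := 2) (by omega)
  have e : p.getVert 3 = y := by rw [← h2]; exact p.getVert_length
  rw [Walk.getVert_zero] at a1
  rw [show (2 + 1 : ℕ) = 3 from rfl, e] at a3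
  refine ⟨p.getVert 1, p.getVert 2, a1, a2, a3, ?_, ?_⟩
  · intro h'
    have := hp.getVert_injOn (show 1 ≤ p.length by omega) (show 3 ≤ p.length by omega) (h'.trans e.symm)
    omega
  · intro h'
    have := hp.getVert_injOn (show 2 ≤ p.length by omega) (show 0 ≤ p.length by omega)
      (h'.trans (p.getVert_zero).symm)
    omega

/-- A Hamiltonian path as a function. -/
theorem ham [Fintype V] [DecidableEq V] {n : ℕ} (hc : Fintype.card V = n) (h : HasP G n) {x y : V}
    (hxy : x ≠ y) : ∃ w : ℕ → V, w 0 = x ∧ w (n - 1) = y ∧ (∀ i < n - 1, G.Adj (w i) (w (i + 1))) ∧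
      (∀ i j, i ≤ n - 1 → j ≤ n - 1 → w i = w j → i = j) ∧ ∀ z, ∃ i ≤ n - 1, w i = z := by
  obtain ⟨p, hp, hl⟩ := h x y hxy
  have h2 : p.length = n - 1 := by omega
  have hinj : ∀ i j, i ≤ n - 1 → j ≤ n - 1 → p.getVert i = p.getVert j → i = j := fun i j hi hj e =>
    hp.getVert_injOn (show i ≤ p.length by omega) (show j ≤ p.length by omega) e
  refine ⟨p.getVert, p.getVert_zero, by rw [← h2]; exact p.getVert_length,
    fun i hi => p.adj_getVert_succ (by omega), hinj, fun z => ?_⟩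
  have hcard : ((Finset.range n).image p.getVert).card = Fintype.card V := by
    rw [Finset.card_image_of_injOn, Finset.card_range, hc]
    intro i hi j hj e
    rw [Finset.mem_coe, Finset.mem_range] at hi hj
    exact hinj i j (by omega) (by omega) e
  have := Finset.eq_univ_of_card _ hcard
  have hz : z ∈ (Finset.range n).image p.getVert := by rw [this]; exact Finset.mem_univ z
  obtain ⟨i, hi, e⟩ := Finset.mem_image.1 hz
  rw [Finset.mem_range] at hi
  exact ⟨i, by omega, e⟩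

/-- There is no cut vertex. -/
theorem cut {n : ℕ} {w : ℕ → V} {u v c d : V} {S : V → Prop} (h0 : w 0 = u) (h1 : w (n - 1) = v)
    (hadj : ∀ i < n - 1, G.Adj (w i) (w (i + 1)))
    (hinj : ∀ i j, i ≤ n - 1 → j ≤ n - 1 → w i = w j → i = j) (hsurj : ∀ z, ∃ i ≤ n - 1, w i = z)
    (hu : ¬ S u) (hv : ¬ S v) (hd : S d) (hS : ∀ d z, S d → G.Adj d z → S z ∨ z = c) : False := by
  classical
  obtain ⟨p, hp, hpd⟩ := hsurj d
  have hex : ∃ i, S (w i) := ⟨p, by rw [hpd]; exact hd⟩
  set i := Nat.find hex with hi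
  have hi1 : S (w i) := Nat.find_spec hex
  have hi2 : i ≤ p := Nat.find_min' hex (by rw [hpd]; exact hd)
  have hi3 : i ≠ 0 := by
    intro h
    rw [h, h0] at hi1
    exact hu hi1
  have hi4 : ¬ S (w (i - 1)) := Nat.find_min hex (by omega)
  have e1 : w (i - 1) = c := by
    have ha := hadj (i - 1) (by omega)
    rw [show i - 1 + 1 = i by omega] at ha
    exact (hS _ _ hi1 ha.symm).resolve_left hi4
  set j := Nat.findGreatest (fun i => S (w i)) (n - 1) with hj
  have hj1 : S (w j) := Nat.findGreatest_spec (P := fun i => S (w i)) hp (by rw [hpd]; exact hd)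
  have hj2 : j ≤ n - 1 := Nat.findGreatest_le _
  have hj3 : p ≤ j := Nat.le_findGreatest hp (by rw [hpd]; exact hd)
  have hj4 : j ≠ n - 1 := by
    intro h
    rw [h, h1] at hj1
    exact hv hj1
  have hj5 : ¬ S (w (j + 1)) :=
    Nat.findGreatest_is_greatest (P := fun i => S (w i)) (Nat.lt_succ_self _) (by omega)
  have e2 : w (j + 1) = c := (hS _ _ hj1 (hadj j (by omega))).resolve_left hj5
  have := hinj (i - 1) (j + 1) (by omega) (by omega) (e1.trans e2.symm)
  omega

/-- no path of order five from `u` to `v` -/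
def No5 (G : SimpleGraph V) (u v : V) : Prop :=
  ∀ a x c : V, G.Adj u a → G.Adj a x → G.Adj x c → G.Adj c v → a ≠ c → a ≠ v → c ≠ u → x ≠ u →
    x ≠ v → False

theorem no5_of {u v : V} (huv : u ≠ v) (h : ¬ ∃ p : G.Walk u v, p.IsPath ∧ p.length + 1 = 5) :
    No5 G u v := by
  intro a x c h1 h2 h3 h4 hac hav hcu hxu hxv
  apply h
  refine ⟨Walk.cons h1 (Walk.cons h2 (Walk.cons h3 (Walk.cons h4 Walk.nil))), ?_, rfl⟩
  rw [Walk.isPath_def]
  simp only [Walk.support_cons, Walk.support_nil, List.nodup_cons, List.mem_cons,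
    List.not_mem_nil, or_false, not_or, List.nodup_nil, not_false_eq_true, and_true]
  exact ⟨⟨h1.ne, hxu.symm, hcu.symm, huv⟩, ⟨h2.ne, hac, hav⟩, ⟨h3.ne, hxv⟩, h4.ne⟩

theorem No5.symm {u v : V} (h : No5 G u v) : No5 G v u :=
  fun a x c h1 h2 h3 h4 hac hau hcv hxv hxu =>
    h c x a h4.symm h3.symm h2.symm h1.symm hac.symm hcv hau hxu hxv

/-- the neighbours of `u` are neighbours of `v` -/
theorem nbr [Fintype V] [DecidableEq V] {n : ℕ} (hc : Fintype.card V = n) (hn : 6 ≤ n)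
    (h3 : HasP G 3) (hH : HasP G n) {u v : V} (huv : u ≠ v) (h5 : No5 G u v) {a₀ : V}
    (ha : G.Adj u a₀) (hav : a₀ ≠ v) : G.Adj v a₀ := by
  by_contra hna
  -- the neighbours of `v` are neighbours of `u`
  have hC : ∀ c, G.Adj v c → c ≠ u → G.Adj u c := by
    intro c hvc hcu
    have hne : a₀ ≠ c := by rintro rfl; exact hna hvc
    obtain ⟨z, hz1, hz2⟩ := p3 h3 hne
    by_cases hzu : z = u
    · subst hzu; exact hz2
    · exfalso
      have hzv : z ≠ v := by rintro rfl; exact hna hz1.symm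
      exact h5 a₀ z c ha hz1 hz2 hvc.symm hne hav hcu hzu hzv
  set D : V → Prop := fun d => d ≠ u ∧ d ≠ v ∧ ¬ G.Adj u d ∧ ¬ G.Adj v d with hD
  have hcd : ∀ d, D d → ∃ c, G.Adj v c ∧ c ≠ u ∧ G.Adj d c ∧ (∀ a, G.Adj u a → a ≠ v → G.Adj d a → a = c) ∧
      G.Adj a₀ c := by
    intro d hd
    obtain ⟨c, hc1, hc2⟩ := p3 h3 hd.2.1
    have hcu : c ≠ u := by rintro rfl; exact hd.2.2.1 hc1.symm
    have huniq : ∀ a, G.Adj u a → a ≠ v → G.Adj d a → a = c := by
      intro a h1 h2 h3'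
      by_contra hne
      exact h5 a d c h1 h3'.symm hc1 hc2 hne h2 hcu hd.1 hd.2.1
    refine ⟨c, hc2.symm, hcu, hc1, huniq, ?_⟩
    have hne : a₀ ≠ d := by rintro rfl; exact hd.2.2.1 ha
    obtain ⟨z, hz1, hz2⟩ := p3 h3 hne
    have hzu : z ≠ u := by rintro rfl; exact hd.2.2.1 hz2
    have hzv : z ≠ v := by rintro rfl; exact hd.2.2.2 hz2
    by_cases hz : G.Adj u z
    · rw [← huniq z hz hzv hz2.symm]; exact hz1
    · exfalso
      have hz' : ¬ G.Adj v z := fun h => hz (hC z h hzu)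
      obtain ⟨c', hc1', hc2'⟩ := p3 h3 hzv
      have hcu' : c' ≠ u := by rintro rfl; exact hz hc1'.symm
      by_cases hne' : a₀ = c'
      · exact hna (by rw [hne']; exact hc2'.symm)
      · exact h5 a₀ z c' ha hz1 hc1' hc2' hne' hav hcu' hzu hzv
  obtain ⟨w, w0, w1, hadj, hinj, hsurj⟩ := ham hc hH huv
  by_cases hex : ∃ d, D d
  · obtain ⟨d₀, hd₀⟩ := hex
    obtain ⟨c₀, a1, a2, a3, a4, a5⟩ := hcd d₀ hd₀
    refine cut (c := c₀) (S := D) w0 w1 hadj hinj hsurj (fun h => h.1 rfl) (fun h => h.2.1 rfl) hd₀ ?_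
    intro d z hd hdz
    have hzu : z ≠ u := by rintro rfl; exact hd.2.2.1 hdz.symm
    have hzv : z ≠ v := by rintro rfl; exact hd.2.2.2 hdz.symm
    by_cases hz : G.Adj u z
    · right
      obtain ⟨c, b1, b2, b3, b4, b5⟩ := hcd d hd
      rw [b4 z hz hzv hdz]
      by_contra hne
      have hcv : c ≠ v := b1.ne'
      exact h5 c a₀ c₀ (hC c b1 b2) b5.symm a5 a1.symm hne hcv a2 ha.ne' hav
    · left
      exact ⟨hzu, hzv, hz, fun h => hz (hC z h hzu)⟩
  · push Not at hex
    have b1 := hadj (n - 2) (by omega)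
    have b2 := hadj (n - 3) (by omega)
    have b3 := hadj (n - 4) (by omega)
    rw [show n - 2 + 1 = n - 1 by omega, w1] at b1
    rw [show n - 3 + 1 = n - 2 by omega] at b2
    rw [show n - 4 + 1 = n - 3 by omega] at b3
    have nu : ∀ i, 1 ≤ i → i ≤ n - 1 → w i ≠ u := by
      intro i hi hi' h
      have := hinj i 0 hi' (by omega) (h.trans w0.symm)
      omega
    have nv : ∀ i, i < n - 1 → w i ≠ v := by
      intro i hi h
      have := hinj i (n - 1) (by omega) le_rfl (h.trans w1.symm)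
      omega
    have hy : G.Adj u (w (n - 4)) := by
      by_contra h
      exact hex _ ⟨nu _ (by omega) (by omega), nv _ (by omega), h,
        fun h' => h (hC _ h' (nu _ (by omega) (by omega)))⟩
    refine h5 (w (n - 4)) (w (n - 3)) (w (n - 2)) hy b3 b2 b1 ?_ (nv _ (by omega))
      (nu _ (by omega) (by omega)) (nu _ (by omega) (by omega)) (nv _ (by omega))
    intro h
    have := hinj _ _ (by omega) (by omega) h
    omega

/-- **Lower bound.** -/
theorem eleven [Fintype V] [DecidableEq V] {n : ℕ} (hc : Fintype.card V = n) (hn : 6 ≤ n)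
    (h3 : HasP G 3) (h4 : HasP G 4) (hH : HasP G n) {u v : V} (huv : u ≠ v)
    (h5' : ¬ ∃ p : G.Walk u v, p.IsPath ∧ p.length + 1 = 5) : 11 ≤ n := by
  have h5 : No5 G u v := no5_of huv h5'
  have uv : ∀ z, G.Adj u z → z ≠ v → G.Adj v z := fun z => nbr hc hn h3 hH huv h5
  have vu : ∀ z, G.Adj v z → z ≠ u → G.Adj u z := fun z => nbr hc hn h3 hH huv.symm h5.symm
  set C : V → Prop := fun z => G.Adj u z ∧ G.Adj v z with hC
  set D : V → Prop := fun d => d ≠ u ∧ d ≠ v ∧ ¬ G.Adj u d ∧ ¬ G.Adj v d with hD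
  have key : ∀ a x c, C a → C c → G.Adj a x → G.Adj x c → a ≠ c → x ≠ u → x ≠ v → False :=
    fun a x c ha hc h1 h2 hne hxu hxv =>
      h5 a x c ha.1 h1 h2 hc.2.symm hne ha.2.ne' hc.1.ne' hxu hxv
  have trich : ∀ z, z ≠ u → z ≠ v → C z ∨ D z := by
    intro z hzu hzv
    by_cases h : G.Adj u z
    · exact Or.inl ⟨h, uv z h hzv⟩
    · exact Or.inr ⟨hzu, hzv, h, fun h' => h (vu z h' hzu)⟩
  have matching : ∀ a b c, C a → C b → C c → G.Adj a b → G.Adj a c → b = c := by
    intro a b c ha hb hc h1 h2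
    by_contra hne
    exact key b a c hb hc h1.symm h2 hne ha.1.ne' ha.2.ne'
  have uniq : ∀ d a b, D d → C a → C b → G.Adj d a → G.Adj d b → a = b := by
    intro d a b hd ha hb h1 h2
    by_contra hne
    exact key a d b ha hb h1.symm h2 hne hd.1 hd.2.1
  have att : ∀ d, D d → ∃ c, C c ∧ G.Adj d c := by
    intro d hd
    obtain ⟨c, hc1, hc2⟩ := p3 h3 hd.2.1
    have hcu : c ≠ u := by rintro rfl; exact hd.2.2.1 hc1.symm
    exact ⟨c, ⟨vu c hc2.symm hcu, hc2.symm⟩, hc1⟩
  obtain ⟨a, b, pa, pab, pb, pav, pbu⟩ := p4 h4 huv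
  have hCa : C a := ⟨pa, uv a pa pav⟩
  have hCb : C b := ⟨vu b pb.symm pbu, pb.symm⟩
  have hab : a ≠ b := pab.ne
  obtain ⟨w, w0, w1, hadj, hinj, hsurj⟩ := ham hc hH huv
  have nu : ∀ i, 1 ≤ i → i ≤ n - 1 → w i ≠ u := by
    intro i hi hi' h
    have := hinj i 0 hi' (by omega) (h.trans w0.symm)
    omega
  have nv : ∀ i, i < n - 1 → w i ≠ v := by
    intro i hi h
    have := hinj i (n - 1) (by omega) le_rfl (h.trans w1.symm)
    omega
  -- `D` is nonempty
  have hDne : ∃ d, D d := by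
    by_contra hex
    push Not at hex
    have c1 := (trich _ (nu 1 (by omega) (by omega)) (nv 1 (by omega))).resolve_right (hex _)
    have c2 := (trich _ (nu 2 (by omega) (by omega)) (nv 2 (by omega))).resolve_right (hex _)
    have c3 := (trich _ (nu 3 (by omega) (by omega)) (nv 3 (by omega))).resolve_right (hex _)
    have := matching _ _ _ c2 c1 c3 (hadj 1 (by omega)).symm (hadj 2 (by omega))
    have := hinj _ _ (by omega) (by omega) this
    omega
  obtain ⟨d₀, hd₀⟩ := hDne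
  obtain ⟨c₀, hc₀, hdc₀⟩ := att d₀ hd₀
  -- every vertex of `C` has neighbours in `D`
  have one : ∀ c, C c → ∃ d, D d ∧ G.Adj d c := by
    intro c hcC
    by_contra hno
    push Not at hno
    have hall : ∀ d, D d → ∀ e, C e → G.Adj d e → G.Adj c e := by
      intro d hd e he hde
      have hne : c ≠ d := by rintro rfl; exact hd.2.2.1 hcC.1
      obtain ⟨z, hz1, hz2⟩ := p3 h3 hne
      have hzu : z ≠ u := by rintro rfl; exact hd.2.2.1 hz2
      have hzv : z ≠ v := by rintro rfl; exact hd.2.2.2 hz2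
      rcases trich z hzu hzv with hz | hz
      · rw [← uniq d z e hd hz he hz2.symm hde]; exact hz1
      · exact absurd hz1.symm (hno z hz)
    refine cut (c := c₀) (S := D) w0 w1 hadj hinj hsurj (fun h => h.1 rfl) (fun h => h.2.1 rfl) hd₀ ?_
    intro d z hd hdz
    have hzu : z ≠ u := by rintro rfl; exact hd.2.2.1 hdz.symm
    have hzv : z ≠ v := by rintro rfl; exact hd.2.2.2 hdz.symm
    rcases trich z hzu hzv with hz | hz
    · right
      exact matching c z c₀ hcC hz hc₀ (hall d hd z hz hdz) (hall d₀ hd₀ c₀ hc₀ hdc₀)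
    · exact Or.inl hz
  have two : ∀ c, C c → ∃ d d', D d ∧ D d' ∧ d ≠ d' ∧ G.Adj d c ∧ G.Adj d' c := by
    intro c hcC
    obtain ⟨d, hd, hdc⟩ := one c hcC
    obtain ⟨z, hz1, hz2⟩ := p3 h3 hdc.ne
    have hzu : z ≠ u := by rintro rfl; exact hd.2.2.1 hz1.symm
    have hzv : z ≠ v := by rintro rfl; exact hd.2.2.2 hz1.symm
    rcases trich z hzu hzv with hz | hz
    · exact absurd (uniq d z c hd hz hcC hz1 hdc) hz2.ne
    · exact ⟨d, z, hd, hz, hz1.ne, hdc, hz2⟩
  -- a third vertex of `C`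
  have three : ∃ e, C e ∧ e ≠ a ∧ e ≠ b := by
    by_contra hno
    push Not at hno
    have hCab : ∀ z, C z → z = a ∨ z = b := by
      intro z hz
      by_cases h : z = a
      · exact Or.inl h
      · exact Or.inr (hno z hz h)
    have Nu : ∀ z, G.Adj u z → z = v ∨ z = a ∨ z = b := by
      intro z hz
      by_cases h : z = v
      · exact Or.inl h
      · exact Or.inr (hCab z ⟨hz, uv z hz h⟩)
    have Nv : ∀ z, G.Adj v z → z = u ∨ z = a ∨ z = b := by
      intro z hz
      by_cases h : z = u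
      · exact Or.inl h
      · exact Or.inr (hCab z ⟨vu z hz h, hz⟩)
    obtain ⟨x, x0, x1, xadj, xinj, xsurj⟩ := ham hc hH hab
    obtain ⟨p, hp, hpu⟩ := xsurj u
    obtain ⟨q, hq, hqv⟩ := xsurj v
    have pa : p ≠ 0 := by rintro rfl; exact hCa.1.ne (hpu.symm.trans x0)
    have pb : p ≠ n - 1 := by rintro rfl; exact hCb.1.ne (hpu.symm.trans x1)
    have qa : q ≠ 0 := by rintro rfl; exact hCa.2.ne (hqv.symm.trans x0)
    have qb : q ≠ n - 1 := by rintro rfl; exact hCb.2.ne (hqv.symm.trans x1)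
    have e1 := xadj (p - 1) (by omega)
    rw [show p - 1 + 1 = p by omega, hpu] at e1
    have e2 := xadj p (by omega)
    rw [hpu] at e2
    have f1 := xadj (q - 1) (by omega)
    rw [show q - 1 + 1 = q by omega, hqv] at f1
    have f2 := xadj q (by omega)
    rw [hqv] at f2
    have I : ∀ i, i ≤ n - 1 → (x i = a → i = 0) ∧ (x i = b → i = n - 1) ∧ (x i = u → i = p) ∧
        (x i = v → i = q) := by
      intro i hi
      exact ⟨fun h => xinj i 0 hi (by omega) (h.trans x0.symm),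
        fun h => xinj i (n - 1) hi le_rfl (h.trans x1.symm),
        fun h => xinj i p hi hp (h.trans hpu.symm),
        fun h => xinj i q hi hq (h.trans hqv.symm)⟩
    obtain ⟨i1, i2, i3, i4⟩ := I (p - 1) (by omega)
    obtain ⟨j1, j2, j3, j4⟩ := I (p + 1) (by omega)
    obtain ⟨k1, k2, k3, k4⟩ := I (q - 1) (by omega)
    obtain ⟨l1, l2, l3, l4⟩ := I (q + 1) (by omega)
    rcases Nu _ e1.symm with g | g | g <;> rcases Nu _ e2 with g' | g' | g' <;>
      rcases Nv _ f1.symm with g'' | g'' | g'' <;> rcases Nv _ f2 with t | t | t <;>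
      (try have r1 := i1 g) <;> (try have r1 := i2 g) <;> (try have r1 := i4 g) <;>
      (try have r2 := j1 g') <;> (try have r2 := j2 g') <;> (try have r2 := j4 g') <;>
      (try have r3 := k1 g'') <;> (try have r3 := k2 g'') <;> (try have r3 := k3 g'') <;>
      (try have r4 := l1 t) <;> (try have r4 := l2 t) <;> (try have r4 := l3 t) <;> omega
  obtain ⟨e, hCe, hea, heb⟩ := three
  obtain ⟨a1, a2, da1, da2, hane, haa1, haa2⟩ := two a hCa
  obtain ⟨b1, b2, db1, db2, hbne, hbb1, hbb2⟩ := two b hCb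
  obtain ⟨e1, e2, de1, de2, hene, hee1, hee2⟩ := two e hCe
  have CD : ∀ c d, C c → D d → c ≠ d := by
    rintro c d hc hd rfl
    exact hd.2.2.1 hc.1
  have DD : ∀ d d' c c', D d → C c → C c' → c ≠ c' → G.Adj d c → G.Adj d' c' → d ≠ d' := by
    rintro d d' c c' hd hc hc' hne h1 h2 rfl
    exact hne (uniq d c c' hd hc hc' h1 h2)
  have hnd : [u, v, a, b, e, a1, a2, b1, b2, e1, e2].Nodup := by
    simp only [List.nodup_cons, List.mem_cons, List.not_mem_nil, or_false, not_or, List.nodup_nil,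
      not_false_eq_true, and_true]
    exact ⟨⟨huv, hCa.1.ne, hCb.1.ne, hCe.1.ne, da1.1.symm, da2.1.symm, db1.1.symm, db2.1.symm,
        de1.1.symm, de2.1.symm⟩,
      ⟨hCa.2.ne, hCb.2.ne, hCe.2.ne, da1.2.1.symm, da2.2.1.symm, db1.2.1.symm, db2.2.1.symm,
        de1.2.1.symm, de2.2.1.symm⟩,
      ⟨hab, hea.symm, CD _ _ hCa da1, CD _ _ hCa da2, CD _ _ hCa db1, CD _ _ hCa db2,
        CD _ _ hCa de1, CD _ _ hCa de2⟩,
      ⟨heb.symm, CD _ _ hCb da1, CD _ _ hCb da2, CD _ _ hCb db1, CD _ _ hCb db2,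
        CD _ _ hCb de1, CD _ _ hCb de2⟩,
      ⟨CD _ _ hCe da1, CD _ _ hCe da2, CD _ _ hCe db1, CD _ _ hCe db2,
        CD _ _ hCe de1, CD _ _ hCe de2⟩,
      ⟨hane, DD _ _ _ _ da1 hCa hCb hab haa1 hbb1, DD _ _ _ _ da1 hCa hCb hab haa1 hbb2,
        DD _ _ _ _ da1 hCa hCe hea.symm haa1 hee1, DD _ _ _ _ da1 hCa hCe hea.symm haa1 hee2⟩,
      ⟨DD _ _ _ _ da2 hCa hCb hab haa2 hbb1, DD _ _ _ _ da2 hCa hCb hab haa2 hbb2,
        DD _ _ _ _ da2 hCa hCe hea.symm haa2 hee1, DD _ _ _ _ da2 hCa hCe hea.symm haa2 hee2⟩,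
      ⟨hbne, DD _ _ _ _ db1 hCb hCe heb.symm hbb1 hee1, DD _ _ _ _ db1 hCb hCe heb.symm hbb1 hee2⟩,
      ⟨DD _ _ _ _ db2 hCb hCe heb.symm hbb2 hee1, DD _ _ _ _ db2 hCb hCe heb.symm hbb2 hee2⟩,
      hene⟩
  have := hnd.length_le_card
  rw [hc] at this
  simpa using this

end Pool.Agent.E8helper48.PO
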