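import Pool.Agent.E8helper48.PO.Base

/-!
# All orders except five, for all numbers of vertices at least eleven
-/

set_option autoImplicit false

namespace Pool.Agent.E8helper48.PO

theorem LP_mono {n x y i : ℕ} (h : LP n x y i) : LP (n + 1) x y i := by
  obtain ⟨l, h1, h2, h3, h4, h5, h6⟩ := h
  exact ⟨l, h1, h2, fun z hz => (h3 z hz).trans (Nat.lt_succ_self n), h4, h5, h6⟩

/-- insertion of the new twin into a Hamiltonian path -/
theorem ins {n x y : ℕ} (hn : 11 ≤ n) (hxy : x ≠ y) (h : LP n x y n) : LP (n + 1) x y (n + 1) := by
  obtain ⟨l, h1, h2, h3, h4, h5, h6⟩ := h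
  have hmem : 10 ∈ l := by
    have hsub : l.toFinset ⊆ Finset.range n := by
      intro z hz
      rw [Finset.mem_range]
      exact h3 z (List.mem_toFinset.1 hz)
    have hcard : (Finset.range n).card ≤ l.toFinset.card := by
      rw [List.toFinset_card_of_nodup h2, h1, Finset.card_range]
    have := Finset.eq_of_subset_of_card_le hsub hcard
    rw [← List.mem_toFinset, this, Finset.mem_range]
    omega
  have hnl : n ∉ l := fun h => (lt_irrefl n (h3 n h))
  obtain ⟨s, t, rfl⟩ := List.append_of_mem hmem
  have hR : R 10 n := Or.inr ⟨by omega, le_rfl, by omega⟩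
  rcases t with _ | ⟨b, t⟩
  · have hy : y = 10 := by
      rw [List.getLast?_append] at h6
      simpa using h6.symm
    rcases List.eq_nil_or_concat s with rfl | ⟨s', a, rfl⟩
    · exfalso
      apply hxy
      rw [hy]
      simpa using h5.symm
    · refine ⟨s' ++ [a] ++ [n, 10], ?_, ?_, ?_, ?_, ?_, ?_⟩
      · simp only [List.length_append, List.length_cons, List.length_nil, List.concat_eq_append] at h1 ⊢
        omega
      · simp only [List.concat_eq_append, List.nodup_append, List.mem_append, List.mem_cons,
          List.not_mem_nil, or_false, List.nodup_cons, ne_eq] at h2 hnl ⊢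
        refine ⟨h2.1, ⟨by omega, by simp⟩, ?_⟩
        rintro z hz w (rfl | rfl)
        · rintro rfl
          exact hnl (Or.inl hz)
        · exact h2.2.2 z hz _ rfl
      · intro z hz
        simp only [List.mem_append, List.mem_cons, List.not_mem_nil, or_false] at hz
        rcases hz with (hz | rfl) | rfl | rfl
        · exact (h3 z (by simp [hz])).trans (Nat.lt_succ_self n)
        · exact (h3 z (by simp)).trans (Nat.lt_succ_self n)
        · omega
        · omega
      · rw [List.concat_eq_append] at h4
        rw [List.isChain_append] at h4 ⊢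
        refine ⟨h4.1, ?_, ?_⟩
        · rw [List.isChain_cons_cons]
          exact ⟨R_symm hR, List.isChain_singleton _⟩
        · intro z hz w hw
          simp only [List.head?_cons, Option.mem_def, Option.some.injEq] at hw
          subst hw
          have := h4.2.2 z hz 10 (by simp)
          refine R_symm (R_twin le_rfl (by omega) (R_symm this) ?_)
          have hz' : z = a := by
            rw [List.getLast?_append] at hz
            simpa using hz.symm
          rw [hz']
          rintro rfl
          exact hnl (by simp)
      · rw [List.append_assoc]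
        rw [List.concat_eq_append] at h5
        rw [List.head?_append] at h5 ⊢
        rw [List.head?_append] at h5 ⊢
        rcases s' with _ | ⟨c, s'⟩
        · simpa using h5
        · simpa using h5
      · rw [List.getLast?_append]
        simp [hy]
  · refine ⟨s ++ 10 :: n :: b :: t, ?_, ?_, ?_, ?_, ?_, ?_⟩
    · simp only [List.length_append, List.length_cons] at h1 ⊢
      omega
    · have hp : (s ++ 10 :: n :: b :: t).Perm (n :: (s ++ 10 :: b :: t)) := by
        have : s ++ 10 :: n :: b :: t = (s ++ [10]) ++ n :: (b :: t) := by simp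
        rw [this]
        refine List.perm_middle.trans ?_
        simp
      rw [hp.nodup_iff, List.nodup_cons]
      exact ⟨hnl, h2⟩
    · intro z hz
      simp only [List.mem_append, List.mem_cons] at hz
      rcases hz with hz | rfl | rfl | rfl | hz
      · exact (h3 z (by simp [hz])).trans (Nat.lt_succ_self n)
      · omega
      · omega
      · exact (h3 z (by simp)).trans (Nat.lt_succ_self n)
      · exact (h3 z (by simp [hz])).trans (Nat.lt_succ_self n)
    · rw [List.isChain_append] at h4 ⊢
      refine ⟨h4.1, ?_, ?_⟩
      · have h7 := h4.2.1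
        rw [List.isChain_cons_cons] at h7 ⊢
        refine ⟨hR, ?_⟩
        rw [List.isChain_cons_cons]
        refine ⟨R_twin le_rfl (by omega) h7.1 ?_, h7.2⟩
        rintro rfl
        exact hnl (by simp)
      · intro z hz w hw
        exact h4.2.2 z hz w (by simpa using hw)
    · rw [List.head?_append] at h5 ⊢
      simpa using h5
    · rw [List.getLast?_append] at h6 ⊢
      simpa using h6

/-- exchange of the twins -/
def sw (n z : ℕ) : ℕ := if z = 10 then n else if z = n then 10 else z

theorem sw_sw {n : ℕ} (z : ℕ) : sw n (sw n z) = z := by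
  unfold sw
  split_ifs <;> omega

theorem sw_R {n : ℕ} (hn : 11 ≤ n) (a b : ℕ) (h : R a b) : R (sw n a) (sw n b) := by
  have hR : R n 10 := Or.inr ⟨by omega, by omega, le_rfl⟩
  have hab : a ≠ b := by rintro rfl; exact R_irrefl _ h
  unfold sw
  by_cases ha : a = 10
  · subst ha
    rw [if_pos rfl, if_neg hab.symm]
    by_cases hb : b = n
    · rw [if_pos hb]; exact hR
    · rw [if_neg hb]
      exact R_twin le_rfl (by omega) h hb
  · rw [if_neg ha]
    by_cases ha' : a = n
    · subst ha'
      rw [if_pos rfl]
      by_cases hb : b = 10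
      · rw [if_pos hb]; exact R_symm hR
      · rw [if_neg hb, if_neg hab.symm]
        exact R_twin (by omega) le_rfl h hb
    · rw [if_neg ha']
      by_cases hb : b = 10
      · subst hb
        rw [if_pos rfl]
        exact R_symm (R_twin le_rfl (by omega) (R_symm h) ha')
      · rw [if_neg hb]
        by_cases hb' : b = n
        · subst hb'
          rw [if_pos rfl]
          exact R_symm (R_twin (by omega) le_rfl (R_symm h) ha)
        · rw [if_neg hb']; exact h

theorem LP_sw {n x i : ℕ} (hn : 11 ≤ n) (hx : x ≠ 10) (hx' : x ≠ n) (h : LP (n + 1) x 10 i) :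
    LP (n + 1) x n i := by
  obtain ⟨l, h1, h2, h3, h4, h5, h6⟩ := h
  refine ⟨l.map (sw n), by simpa using h1, ?_, ?_, ?_, ?_, ?_⟩
  · refine h2.map fun a b hab => ?_
    rw [← sw_sw (n := n) a, ← sw_sw (n := n) b, hab]
  · intro z hz
    obtain ⟨w, hw, rfl⟩ := List.mem_map.1 hz
    have := h3 w hw
    unfold sw
    split_ifs <;> omega
  · exact List.isChain_map_of_isChain _ (sw_R hn) h4
  · rw [List.head?_map, h5]
    simp [sw, hx, hx']
  · rw [List.getLast?_map, h6]
    simp [sw]

/-- all orders except five -/
def All (n : ℕ) : Prop := ∀ x y, x < n → y < n → x ≠ y → ∀ i, 3 ≤ i → i ≤ n → i ≠ 5 → LP n x y i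

theorem twin_pair {n : ℕ} (hn : 11 ≤ n) (ih : All n) (i : ℕ) (hi : 3 ≤ i) (hi' : i ≤ n + 1)
    (h5 : i ≠ 5) : LP (n + 1) 10 n i := by
  by_cases h3 : i = 3
  · subst h3
    refine ⟨[10, 9, n], rfl, ?_, ?_, ?_, rfl, rfl⟩
    · simp only [List.nodup_cons, List.mem_cons, List.not_mem_nil, or_false, not_or]
      refine ⟨⟨by omega, by omega⟩, by omega, by simp, by simp⟩
    · intro z hz
      simp only [List.mem_cons, List.not_mem_nil, or_false] at hz
      omega
    · have h9 : R 10 9 := by decide
      rw [List.isChain_cons_cons, List.isChain_cons_cons]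
      exact ⟨h9, R_symm (R_twin le_rfl (by omega) h9 (by omega)), List.isChain_singleton _⟩
  · by_cases h6 : i = 6
    · subst h6
      refine ⟨[10, 5, 6, 7, 8, n], rfl, ?_, ?_, ?_, rfl, rfl⟩
      · simp only [List.nodup_cons, List.mem_cons, List.not_mem_nil, or_false, not_or]
        refine ⟨by omega, by omega, by omega, by omega, by omega, by simp, by simp⟩
      · intro z hz
        simp only [List.mem_cons, List.not_mem_nil, or_false] at hz
        omega
      · have h8 : R 10 8 := by decide
        have h8' : R 8 n := R_symm (R_twin le_rfl (by omega) h8 (by omega))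
        have a1 : R 10 5 := by decide
        have a2 : R 5 6 := by decide
        have a3 : R 6 7 := by decide
        have a4 : R 7 8 := by decide
        rw [List.isChain_cons_cons, List.isChain_cons_cons, List.isChain_cons_cons,
          List.isChain_cons_cons, List.isChain_cons_cons]
        exact ⟨a1, a2, a3, a4, h8', List.isChain_singleton _⟩
    · obtain ⟨l, h1, h2, h3', h4, h5', h6'⟩ := ih 10 9 (by omega) (by omega) (by omega) (i - 1)
        (by omega) (by omega) (by omega)
      refine ⟨l ++ [n], ?_, ?_, ?_, ?_, ?_, ?_⟩
      · rw [List.length_append, h1]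
        simp only [List.length_cons, List.length_nil]
        omega
      · rw [List.nodup_append]
        refine ⟨h2, by simp, ?_⟩
        intro a ha b hb
        rw [List.mem_singleton] at hb
        subst hb
        exact (h3' a ha).ne
      · intro z hz
        rw [List.mem_append, List.mem_singleton] at hz
        rcases hz with hz | rfl
        · exact (h3' z hz).trans (Nat.lt_succ_self n)
        · exact Nat.lt_succ_self _
      · rw [List.isChain_append]
        refine ⟨h4, List.isChain_singleton _, ?_⟩
        intro a ha b hb
        rw [h6'] at ha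
        simp only [Option.mem_def, Option.some.injEq] at ha
        simp only [List.head?_cons, Option.mem_def, Option.some.injEq] at hb
        subst ha hb
        have h9 : R 10 9 := by decide
        exact R_symm (R_twin le_rfl (by omega) h9 (by omega))
      · rw [List.head?_append, h5']
        rfl
      · rw [List.getLast?_append]
        rfl

theorem step {n : ℕ} (hn : 11 ≤ n) (ih : All n) : All (n + 1) := by
  have old : ∀ x y, x < n → y < n → x ≠ y → ∀ i, 3 ≤ i → i ≤ n + 1 → i ≠ 5 → LP (n + 1) x y i := by
    intro x y hx hy hxy i hi hi' h5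
    rcases Nat.lt_or_ge n i with h | h
    · have : i = n + 1 := by omega
      subst this
      exact ins hn hxy (ih x y hx hy hxy n (by omega) le_rfl (by omega))
    · exact LP_mono (ih x y hx hy hxy i hi h h5)
  have new : ∀ x, x < n → ∀ i, 3 ≤ i → i ≤ n + 1 → i ≠ 5 → LP (n + 1) x n i := by
    intro x hx i hi hi' h5
    by_cases h10 : x = 10
    · subst h10
      exact twin_pair hn ih i hi hi' h5
    · exact LP_sw hn h10 (by omega) (old x 10 hx (by omega) h10 i hi hi' h5)
  intro x y hx hy hxy i hi hi' h5
  rcases Nat.lt_or_ge x n with h | h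
  · rcases Nat.lt_or_ge y n with h' | h'
    · exact old x y h h' hxy i hi hi' h5
    · have : y = n := by omega
      subst this
      exact new x h i hi hi' h5
  · have : x = n := by omega
    subst this
    exact LP_symm (new y (by omega) i hi hi' h5)

theorem all {n : ℕ} (hn : 11 ≤ n) : All n := by
  induction n, hn using Nat.le_induction with
  | base => exact fun x y hx hy hxy i hi hi' h5 => base hx hy hxy hi hi' h5
  | succ n hn ih => exact step hn ih

/-- the graph with `n` vertices -/
def Gr (n : ℕ) : SimpleGraph (Fin n) where
  Adj a b := R a b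
  symm := ⟨fun _ _ h => R_symm h⟩
  loopless := ⟨fun a h => R_irrefl a h⟩

theorem walk_of {n : ℕ} (l : List ℕ) : ∀ (x : ℕ) (hx : x < n) (y : ℕ) (hy : y < n),
    (∀ z ∈ x :: l, z < n) → (x :: l).IsChain R → (x :: l).getLast? = some y →
    ∃ p : (Gr n).Walk ⟨x, hx⟩ ⟨y, hy⟩, p.support.map Fin.val = x :: l := by
  induction l with
  | nil =>
    intro x hx y hy _ _ h
    have : y = x := by simpa using h.symm
    subst this
    exact ⟨SimpleGraph.Walk.nil, rfl⟩
  | cons b l ih =>
    intro x hx y hy h1 h2 h3
    rw [List.isChain_cons_cons] at h2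
    have hb : b < n := h1 b (by simp)
    obtain ⟨p, hp⟩ := ih b hb y hy (fun z hz => h1 z (List.mem_cons_of_mem _ hz)) h2.2
      (by simpa [List.getLast?_cons_cons] using h3)
    have hadj : (Gr n).Adj ⟨x, hx⟩ ⟨b, hb⟩ := h2.1
    exact ⟨SimpleGraph.Walk.cons hadj p, by
      rw [SimpleGraph.Walk.support_cons, List.map_cons, hp]⟩

end Pool.Agent.E8helper48.PO
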